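import Pool.Agent.helper34.NTA.Spec

/-!
# Row `nta:SYS`: the system of exits
-/

set_option autoImplicit false

namespace Pool.Agent.NTA

open Equiv

section

variable {H : Type} [Group H] {s : ZMod 10 → H} {sg : H →* ℤˣ}

/-- a ray of a small arc at which the traveller leaves this arc leads to a big arc -/
theorem SYS_small {hG : Grp H s sg} {A : ArcFamily (VV sg)} {pos yp : H → ZMod 10 → ℕ} {σ : Perm A.Ray}
    (hP : PosData hG A pos yp) (hσ : ∀ r r' : A.Ray, σ.SameCycle r r' ↔ r.p = r'.p) (e : A.Ray) (y : YY sg)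
    (hy : e.x = Sum.inr y) (hne : (σ e).x ≠ e.x) : ∃ h, (σ e).x = Sum.inl h := by
  obtain ⟨h, c, hc, rfl⟩ := yy_surj hG y
  have hlt : e.i < 2 := by
    have h1 := ray_lt e
    rwa [hy, hP.lenY] at h1
  have hex : ∃ h', yy hG h' c hc = yy hG h c hc ∧ yp h' c = e.i := by
    have h1 := hP.ylt h c hc
    have h2 := hP.ylt (h * s c) c hc
    have h3 := hP.yne h c hc
    by_cases h4 : yp h c = e.i
    · exact ⟨h, rfl, h4⟩
    · exact ⟨h * s c, yy_mul hG h c hc, by omega⟩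
  obtain ⟨h', h1, h2⟩ := hex
  have hp : e.p = (σ e).p := (hσ e (σ e)).1 (Perm.sameCycle_apply_right.2 (Perm.SameCycle.refl σ e))
  have hp' : A.pt (σ e).x (σ e).i = A.pt (Sum.inl h') (pos h' c) := by
    rw [hP.eK h' c hc, h1, h2, ← hy]
    exact hp.symm
  rcases hP.twoK h' c hc _ _ (ray_lt (σ e)) hp' with h3 | h3
  · exact ⟨h', h3.1⟩
  · exact absurd (h3.1.trans (by rw [h1, ← hy])) hne

end

theorem SYS (hFRT : FRT_stmt) (hNXT : NXT_stmt) (hWLK : WLK_stmt) : SYS_stmt := by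
  intro H _ _ s sg hG A pos yp σ hP hσ
  have hlen : ∀ x, 2 ≤ A.len x := by
    rintro (h | y)
    · rw [hP.lenH]
      norm_num
    · rw [hP.lenY]
  have hreach : ∀ d : A.Ray, ∃ m : ℕ, ((A.flip * σ) ^ m) d ∈ {e : A.Ray | Exit A σ e} := by
    intro d
    obtain ⟨t, -, hgo, -⟩ := hWLK _ A σ hσ hlen d
    rcases hx : (((A.flip * σ) ^ t) d).x with h | y
    · exact ⟨t, ⟨h, hx⟩, hgo.out⟩
    · obtain ⟨h, hh⟩ := SYS_small hP hσ _ y hx hgo.out
      obtain ⟨t', -, hgo', -⟩ := hWLK _ A σ hσ hlen (((A.flip * σ) ^ t) d)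
      refine ⟨t' + t, ?_⟩
      rw [pow_add, Perm.mul_apply]
      exact ⟨⟨h, hgo'.x.trans hh⟩, hgo'.out⟩
  obtain ⟨τ, hτ, hτ'⟩ := hFRT A.Ray (A.flip * σ) {e : A.Ray | Exit A σ e} hreach
  refine ⟨τ, hτ, fun e => ?_⟩
  obtain ⟨t, ht1, ht, ht'⟩ := hτ' e
  obtain ⟨u, hu1, hu, hu', hu''⟩ := hNXT H s sg hG A pos yp σ hP hσ e.1 e.2
  have htu : t = u := by
    rcases lt_trichotomy t u with h | h | h
    · refine absurd ?_ (hu'' t ht1 h)
      rw [← ht]
      exact (τ e).2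
    · exact h
    · exact absurd hu (ht' u hu1 h)
  subst htu
  rw [ht]
  exact hu'

end Pool.Agent.NTA
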